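import Pool.Agent.Zk5.HR3.Unif0
import Pool.Agent.Y24.F2

set_option autoImplicit false

/-! # The measure of the heights that are bad for `θ`, uniformly in `θ` -/

namespace Pool.Agent.Zk5.HR3

open MeasureTheory Set Complex Filter Asymptotics
open Pool.Agent.Zk69.Hx (IncF DecF)
open Pool.Agent.Zk69.H5 (NR)
open Pool.Agent.Zk5.HR (vol)
open H370 (mult Zf)

theorem nr_density {c : ℝ} (hc : c < 4 / 3) : ∃ C : ℝ, 0 < C ∧ ∀ σ T : ℝ, 1 / 2 ≤ σ → σ ≤ 1 → 2 ≤ T →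
    NR σ T ≤ C * T ^ (1 - c * (σ - 1 / 2)) * Real.log T := by
  classical
  obtain ⟨C, hC, h⟩ := Pool.Agent.Y24.density hc
  refine ⟨C, hC, fun σ T h1 h2 h3 => ?_⟩
  obtain ⟨hfin, h4⟩ := h σ T h1 h2 h3
  refine le_trans ?_ h4
  rw [finsum_mem_eq_finite_toFinset_sum _ hfin]
  unfold NR
  refine Finset.sum_le_sum_of_subset_of_nonneg (fun s hs => ?_) fun _ _ _ => Nat.cast_nonneg _
  rw [Finset.mem_filter, H370.mem_Zf H370.good_zeta le_rfl] at hs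
  obtain ⟨⟨g1, g2, g3, g4, g5⟩, g6⟩ := hs
  rw [Set.Finite.mem_toFinset]
  exact ⟨g5, g6.le, by linarith, g4⟩

/-- **the measure of the heights that are bad for `θ`** -/
theorem unif {c : ℝ} (hc : c < 4 / 3) : ∃ C : ℝ, 0 < C ∧ ∀ θ T : ℝ, 1 / 2 ≤ θ → θ ≤ 1 → 2 ≤ T →
    vol {t : ℝ | ¬ (IncF θ t ∧ DecF θ t)} T ≤ C * T ^ (1 - c * (θ - 1 / 2)) := by
  have h1 : max c 1 < 4 / 3 := max_lt hc (by norm_num)
  have h2 : 1 ≤ max c 1 := le_max_right _ _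
  obtain ⟨C, hC, h⟩ := unif_of (c := max c 1) (c' := (max c 1 + 4 / 3) / 2) h2 (by linarith) (by linarith)
    (nr_density (by linarith))
  refine ⟨C, hC, fun θ T g1 g2 g3 => (h θ T g1 g2 g3).trans ?_⟩
  refine mul_le_mul_of_nonneg_left ?_ hC.le
  apply Real.rpow_le_rpow_of_exponent_le (by linarith)
  have h3 : c ≤ max c 1 := le_max_left _ _
  have h4 : 0 ≤ θ - 1 / 2 := by linarith
  nlinarith

end Pool.Agent.Zk5.HR3
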