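import Pool.Agent.Zk5.HR.Locq

set_option autoImplicit false

/-!
# A zero destroys the monotonicity in a cone of heights

Selection of a scale at which the zeros near `z0` form a cluster: no other zeros of comparable weight are near,
and the zeros farther away have a small gradient.
-/

namespace Pool.Agent.Zk5.HR3

open Complex Metric Set H370 H370.Loc
open Pool.Agent.H24R2.DZ
open Pool.Agent.Zk5.HR

/-- ratio of two values of a product -/
theorem ratio {s : Multiset ℂ} {z w : ℂ} {h : ℂ → ℝ} (H : ∀ ρ ∈ s, ‖z - ρ‖ ≤ Real.exp (h ρ) * ‖w - ρ‖) :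
    ‖Pf s z‖ ≤ Real.exp ((s.map h).sum) * ‖Pf s w‖ := by
  induction s using Multiset.induction_on with
  | empty => simp [Pf_zero]
  | cons ρ s ih =>
    rw [Pf_cons, Pf_cons, Multiset.map_cons, Multiset.sum_cons, norm_mul, norm_mul, Real.exp_add]
    have h1 := H ρ (Multiset.mem_cons_self ρ s)
    have h2 := ih fun ρ' h' => H ρ' (Multiset.mem_cons_of_mem h')
    calc ‖z - ρ‖ * ‖Pf s z‖ ≤ (Real.exp (h ρ) * ‖w - ρ‖) * (Real.exp ((s.map h).sum) * ‖Pf s w‖) := by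
          apply mul_le_mul h1 h2 (norm_nonneg _) (by positivity)
      _ = _ := by ring

/-- scale selection -/
theorem select {n : ℕ → ℝ} {k1 : ℕ} {M : ℝ} (h1 : ∀ k, 1 ≤ n k) (hM : ∀ k, n k ≤ M) (hk : M < 2 ^ k1) :
    ∃ k : ℕ, 1 ≤ k ∧ k ≤ k1 ∧ (∀ j, j ≤ k → n j ≤ 2 ^ (k - j) * n k) ∧ (2 : ℝ) ^ k1 ≤ 2 ^ k * n k := by
  obtain ⟨k, hk', hmax⟩ := Finset.exists_max_image (Finset.range (k1 + 1)) (fun k => n k * 2 ^ k)
    ⟨0, by simp⟩
  have hkk : k ≤ k1 := by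
    have := Finset.mem_range.1 hk'
    omega
  have h4 : (2 : ℝ) ^ k1 ≤ 2 ^ k * n k := by
    have h5 := hmax k1 (by simp)
    have h6 : (0 : ℝ) < 2 ^ k1 := by positivity
    nlinarith [h1 k1]
  refine ⟨k, ?_, hkk, ?_, h4⟩
  · by_contra h0
    have h0' : k = 0 := by omega
    rw [h0', pow_zero, one_mul] at h4
    linarith [hM 0]
  · intro j hj
    have h5 := hmax j (by simp; omega)
    have h6 : (2 : ℝ) ^ k = 2 ^ (k - j) * 2 ^ j := by
      rw [← pow_add]
      congr 1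
      omega
    rw [h6] at h5
    have h7 : (0 : ℝ) < 2 ^ j := by positivity
    have h8 : n j * 2 ^ j ≤ (2 ^ (k - j) * n k) * 2 ^ j := by linarith
    exact le_of_mul_le_mul_right h8 h7

/-- one term -/
theorem outer1 {D s0 R : ℝ} (hs0 : 0 < s0) (hR : 1 < R) (m : ℕ) (hD : s0 / R ^ m < D) :
    1 / D ≤ 1 / s0 + ∑ j ∈ Finset.range m, (if D ≤ s0 / R ^ j then (1 : ℝ) else 0) * (R ^ (j + 1) / s0) := by
  induction m with
  | zero =>
    rw [pow_zero, div_one] at hD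
    simp only [Finset.range_zero, Finset.sum_empty, add_zero]
    exact one_div_le_one_div_of_le hs0 hD.le
  | succ m ih =>
    rw [Finset.sum_range_succ]
    have hR0 : 0 < R := by linarith
    have hterm : 0 ≤ (if D ≤ s0 / R ^ m then (1 : ℝ) else 0) * (R ^ (m + 1) / s0) := by positivity
    rcases lt_or_ge (s0 / R ^ m) D with h | h
    · have := ih h
      linarith
    · rw [if_pos h, one_mul]
      have h1 : 1 / D ≤ R ^ (m + 1) / s0 := by
        have h2 : 0 < s0 / R ^ (m + 1) := by positivity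
        calc 1 / D ≤ 1 / (s0 / R ^ (m + 1)) := one_div_le_one_div_of_le h2 hD.le
          _ = _ := by rw [one_div_div]
      have h3 : 0 ≤ 1 / s0 := by positivity
      have h4 : 0 ≤ ∑ j ∈ Finset.range m, (if D ≤ s0 / R ^ j then (1 : ℝ) else 0) * (R ^ (j + 1) / s0) :=
        Finset.sum_nonneg fun j _ => by positivity
      linarith

/-- the sum over the zeros outside the scale -/
theorem outer (s : Multiset ℂ) (z0 : ℂ) {s0 R : ℝ} (hs0 : 0 < s0) (hR : 1 < R) (m : ℕ) :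
    ((s.filter fun ρ => ¬ ‖ρ - z0‖ ≤ s0 / R ^ m).map fun ρ => 1 / ‖ρ - z0‖).sum ≤
      (Multiset.card s : ℝ) * (1 / s0) + ∑ j ∈ Finset.range m,
        (Multiset.card (s.filter fun ρ => ‖ρ - z0‖ ≤ s0 / R ^ j) : ℝ) * (R ^ (j + 1) / s0) := by
  classical
  have hR0 : 0 < R := by linarith
  induction s using Multiset.induction_on with
  | empty => simp
  | cons ρ s ih =>
    have e1 : (Multiset.card (ρ ::ₘ s) : ℝ) * (1 / s0) = 1 / s0 + (Multiset.card s : ℝ) * (1 / s0) := by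
      rw [Multiset.card_cons]
      push_cast
      ring
    have e2 : ∑ j ∈ Finset.range m,
        (Multiset.card ((ρ ::ₘ s).filter fun ρ => ‖ρ - z0‖ ≤ s0 / R ^ j) : ℝ) * (R ^ (j + 1) / s0) =
        ∑ j ∈ Finset.range m, (if ‖ρ - z0‖ ≤ s0 / R ^ j then (1 : ℝ) else 0) * (R ^ (j + 1) / s0) +
        ∑ j ∈ Finset.range m, (Multiset.card (s.filter fun ρ => ‖ρ - z0‖ ≤ s0 / R ^ j) : ℝ) * (R ^ (j + 1) / s0) := by
      rw [← Finset.sum_add_distrib]
      refine Finset.sum_congr rfl fun j _ => ?_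
      by_cases h : ‖ρ - z0‖ ≤ s0 / R ^ j
      · rw [Multiset.filter_cons_of_pos (p := fun ρ => ‖ρ - z0‖ ≤ s0 / R ^ j) s h, Multiset.card_cons, if_pos h]
        push_cast
        ring
      · rw [Multiset.filter_cons_of_neg (p := fun ρ => ‖ρ - z0‖ ≤ s0 / R ^ j) s h, if_neg h]
        ring
    rw [e1, e2]
    by_cases h : ¬ ‖ρ - z0‖ ≤ s0 / R ^ m
    · rw [Multiset.filter_cons_of_pos (p := fun ρ => ¬ ‖ρ - z0‖ ≤ s0 / R ^ m) s h, Multiset.map_cons, Multiset.sum_cons]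
      have := outer1 hs0 hR m (not_le.1 h)
      linarith
    · rw [Multiset.filter_cons_of_neg (p := fun ρ => ¬ ‖ρ - z0‖ ≤ s0 / R ^ m) s h]
      have h3 : 0 ≤ 1 / s0 := by positivity
      have h4 : 0 ≤ ∑ j ∈ Finset.range m, (if ‖ρ - z0‖ ≤ s0 / R ^ j then (1 : ℝ) else 0) * (R ^ (j + 1) / s0) :=
        Finset.sum_nonneg fun j _ => by positivity
      linarith

/-- the geometric sum -/
theorem geo (m : ℕ) : ∑ j ∈ Finset.range m, (2 : ℝ) ^ (m + 1 - j) * 32768 ^ (j + 1) ≤ 5 * 32768 ^ m := by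
  induction m with
  | zero => simp
  | succ m ih =>
    rw [Finset.sum_range_succ]
    have e : ∑ j ∈ Finset.range m, (2 : ℝ) ^ (m + 1 + 1 - j) * 32768 ^ (j + 1) =
        2 * ∑ j ∈ Finset.range m, (2 : ℝ) ^ (m + 1 - j) * 32768 ^ (j + 1) := by
      rw [Finset.mul_sum]
      refine Finset.sum_congr rfl fun j hj => ?_
      have hj' := Finset.mem_range.1 hj
      have : m + 1 + 1 - j = (m + 1 - j) + 1 := by omega
      rw [this, pow_succ]
      ring
    have e2 : m + 1 + 1 - m = 2 := by omega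
    rw [e, e2]
    have h3 : (0 : ℝ) < 32768 ^ m := by positivity
    have h4 : (32768 : ℝ) ^ (m + 1) = 32768 * 32768 ^ m := by rw [pow_succ]; ring
    rw [h4]
    norm_num
    linarith

set_option maxHeartbeats 4000000 in
/-- **the cone lemma** -/
theorem cone {K : ℝ} (hK : 1 ≤ K) {f : ℂ → ℂ} (hf : Differentiable ℂ f) (h3 : f 3 = 1)
    (hb : ∀ z : ℂ, ‖z‖ ≤ 14 → ‖f z‖ ≤ Real.exp K) {x0 d y : ℝ} (hz : f x0 = 0) (h0 : 0 ≤ x0) (h1 : x0 ≤ 1)
    (hd : 0 < d) (hd1 : d ≤ 1 / 2) (hy : |y| ≤ (d / 4) / (196608 * K) ^ 15) :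
    ∃ u : ℝ, x0 - d ≤ u ∧ u < x0 ∧ ‖f (x0 + y * I)‖ * Real.exp (K * (x0 - u)) < ‖f (u + y * I)‖ := by
  classical
  obtain ⟨s, g, hfg, hg0, hgd, hcard, hld⟩ := fact (by linarith : 0 ≤ K) hf h3 hb
  obtain ⟨z0, hz0⟩ : ∃ z0 : ℂ, z0 = x0 := ⟨_, rfl⟩
  obtain ⟨R, hR⟩ : ∃ R : ℝ, R = 32768 := ⟨_, rfl⟩
  obtain ⟨s0, hs0⟩ : ∃ s0 : ℝ, s0 = d / 4 := ⟨_, rfl⟩
  have hs0p : 0 < s0 := by rw [hs0]; positivity
  have hs08 : s0 ≤ 1 / 8 := by rw [hs0]; linarith
  have hRp : 0 < R := by rw [hR]; norm_num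
  have hR1 : 1 < R := by rw [hR]; norm_num
  have hz0re : z0.re = x0 := by rw [hz0]; simp
  have hz0im : z0.im = 0 := by rw [hz0]; simp
  have hz0in : z0 ∈ closedBall (3 : ℂ) 6 := by
    rw [mem_closedBall, dist_eq_norm]
    have h1 := Complex.norm_le_abs_re_add_abs_im (z0 - 3)
    have h2 : (z0 - 3 : ℂ).re = x0 - 3 := by simp [hz0re]
    have h3 : (z0 - 3 : ℂ).im = 0 := by simp [hz0im]
    rw [h2, h3, abs_zero] at h1
    have h4 : |x0 - 3| ≤ 3 := by rw [abs_le]; constructor <;> linarith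
    linarith
  have hz0s : z0 ∈ s := by
    have h1 : f z0 = 0 := by rw [hz0]; exact hz
    rw [hfg] at h1
    rcases mul_eq_zero.1 h1 with h2 | h2
    · unfold Pf at h2
      rw [Multiset.prod_eq_zero_iff, Multiset.mem_map] at h2
      obtain ⟨ρ, hρ, h3⟩ := h2
      rw [sub_eq_zero] at h3
      rwa [h3]
    · exact absurd h2 (hg0 z0 hz0in)
  -- the counting function and the scale
  obtain ⟨n, hn⟩ : ∃ n : ℕ → ℝ, n = fun k => (Multiset.card (s.filter fun ρ => ‖ρ - z0‖ ≤ s0 / R ^ k) : ℝ) := ⟨_, rfl⟩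
  have hnk : ∀ k, n k = (Multiset.card (s.filter fun ρ => ‖ρ - z0‖ ≤ s0 / R ^ k) : ℝ) := fun k => by rw [hn]
  have hn1 : ∀ k, 1 ≤ n k := by
    intro k
    have h2 : z0 ∈ s.filter fun ρ => ‖ρ - z0‖ ≤ s0 / R ^ k := by
      rw [Multiset.mem_filter]
      refine ⟨hz0s, ?_⟩
      rw [sub_self, norm_zero]
      positivity
    have h4 : 0 < Multiset.card (s.filter fun ρ => ‖ρ - z0‖ ≤ s0 / R ^ k) :=
      Multiset.card_pos_iff_exists_mem.2 ⟨z0, h2⟩
    rw [hnk]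
    exact_mod_cast h4
  have hnM : ∀ k, n k ≤ 2 * K := by
    intro k
    rw [hnk]
    refine le_trans ?_ hcard
    exact_mod_cast Multiset.card_le_card (Multiset.filter_le _ s)
  obtain ⟨k0, hk0, hk0'⟩ := exists_nat_pow_near (x := 98304 * K) (y := (2 : ℝ)) (by linarith) (by norm_num)
  have hk1a : 98304 * K ≤ 2 ^ (k0 + 1) := hk0'.le
  have hk1b : (2 : ℝ) ^ (k0 + 1) ≤ 196608 * K := by
    rw [pow_succ]
    linarith
  obtain ⟨k, hk1, hkk, hsel, hbig⟩ := select (n := n) (k1 := k0 + 1) (M := 2 * K) hn1 hnM (by linarith)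
  obtain ⟨m, hm⟩ : ∃ m : ℕ, k = m + 1 := ⟨k - 1, by omega⟩
  obtain ⟨r, hr⟩ : ∃ r : ℝ, r = s0 / R ^ k := ⟨_, rfl⟩
  have hRk : 0 < R ^ k := by positivity
  have hr0 : 0 < r := by rw [hr]; positivity
  have hRr : R * r = s0 / R ^ m := by
    rw [hr, hm, pow_succ]
    field_simp
  have hRrs : R * r ≤ s0 := by
    rw [hRr]
    exact div_le_self hs0p.le (one_le_pow₀ hR1.le)
  have hyr : |y| ≤ r := by
    refine hy.trans ?_
    rw [← hs0, hr]
    apply div_le_div_of_nonneg_left hs0p.le (by positivity)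
    calc R ^ k ≤ R ^ (k0 + 1) := pow_le_pow_right₀ hR1.le hkk
      _ = (2 ^ (k0 + 1)) ^ 15 := by
        rw [hR, show (32768 : ℝ) = 2 ^ 15 by norm_num, ← pow_mul, ← pow_mul, mul_comm]
      _ ≤ _ := pow_le_pow_left₀ (by positivity) hk1b 15
  -- the three parts
  obtain ⟨c, hc⟩ : ∃ c : Multiset ℂ, c = (s.filter fun ρ => ‖ρ - z0‖ ≤ s0 / R ^ m).filter fun ρ => ‖ρ - z0‖ ≤ r := ⟨_, rfl⟩
  obtain ⟨w, hw⟩ : ∃ w : Multiset ℂ, w = (s.filter fun ρ => ‖ρ - z0‖ ≤ s0 / R ^ m).filter fun ρ => ¬ ‖ρ - z0‖ ≤ r := ⟨_, rfl⟩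
  obtain ⟨o, ho⟩ : ∃ o : Multiset ℂ, o = s.filter fun ρ => ¬ ‖ρ - z0‖ ≤ s0 / R ^ m := ⟨_, rfl⟩
  have hsplit : s = (c + w) + o := by
    rw [hc, hw, Multiset.filter_add_not, ho, Multiset.filter_add_not]
  obtain ⟨N, hN⟩ : ∃ N : ℕ, N = Multiset.card c := ⟨_, rfl⟩
  have hNk : n k = N := by
    rw [hnk, hN, hc, Multiset.filter_filter]
    congr 2
    apply Multiset.filter_congr
    intro ρ _
    rw [← hr]
    constructor
    · intro h
      exact ⟨h, by rw [← hRr]; nlinarith⟩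
    · intro h
      exact h.1
  have hNm : n m = N + Multiset.card w := by
    rw [hnk, hN, hc, hw]
    rw [← Nat.cast_add, ← Multiset.card_add, Multiset.filter_add_not]
  have hN1 : (1 : ℝ) ≤ N := by rw [← hNk]; exact hn1 k
  have hwN : Multiset.card w ≤ N := by
    have h2 := hsel m (by omega)
    have h4 : k - m = 1 := by omega
    rw [h4, pow_one, hNk, hNm] at h2
    have h5 : (Multiset.card w : ℝ) ≤ N := by linarith
    exact_mod_cast h5
  -- the points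
  obtain ⟨u, hu1, hu2, hu3⟩ := cheb w (x0 - R / 4 * r) y (R / 8 * r) (by positivity)
  have hu2' : u ≤ x0 - R / 8 * r := by linarith
  have hRr' : R * r ≤ d / 4 := by rw [← hs0]; exact hRrs
  have hRrp : 0 < R * r := by positivity
  have hux : u < x0 := by nlinarith
  have hxu : x0 - u ≤ R * r / 4 := by linarith
  refine ⟨u, by linarith, hux, ?_⟩
  obtain ⟨z1, hz1⟩ : ∃ z1 : ℂ, z1 = x0 + y * I := ⟨_, rfl⟩
  obtain ⟨z2, hz2⟩ : ∃ z2 : ℂ, z2 = u + y * I := ⟨_, rfl⟩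
  rw [← hz1, ← hz2]
  rw [← hz2] at hu3
  have hd10 : ‖z1 - z0‖ ≤ r := by
    have e : z1 - z0 = ((y : ℝ) : ℂ) * I := by rw [hz1, hz0]; ring
    rw [e, norm_mul, Complex.norm_I, mul_one, Complex.norm_real, Real.norm_eq_abs]
    exact hyr
  have hd12 : ‖z1 - z2‖ = x0 - u := by
    have e : z1 - z2 = ((x0 - u : ℝ) : ℂ) := by rw [hz1, hz2]; push_cast; ring
    rw [e, Complex.norm_real, Real.norm_eq_abs, abs_of_pos (by linarith)]
  have hd20 : ‖z2 - z0‖ ≤ R * r / 4 + r := by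
    calc ‖z2 - z0‖ = ‖(z1 - z0) - (z1 - z2)‖ := by congr 1; ring
      _ ≤ ‖z1 - z0‖ + ‖z1 - z2‖ := norm_sub_le _ _
      _ ≤ _ := by rw [hd12]; linarith
  have hd20' : R / 8 * r ≤ ‖z2 - z0‖ := by
    have h2 := Complex.abs_re_le_norm (z2 - z0)
    have e : (z2 - z0).re = u - x0 := by rw [hz2, hz0]; simp
    rw [e, abs_of_neg (by linarith)] at h2
    linarith
  -- the cluster
  have hcl : ‖Pf c z1‖ ≤ (2 / 4095) ^ N * ‖Pf c z2‖ := by
    rw [hN]
    apply Pf_ratio (by norm_num)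
    intro ρ hρ
    rw [hc, Multiset.mem_filter] at hρ
    have h2 : ‖z1 - ρ‖ ≤ 2 * r := by
      calc ‖z1 - ρ‖ = ‖(z1 - z0) - (ρ - z0)‖ := by congr 1; ring
        _ ≤ ‖z1 - z0‖ + ‖ρ - z0‖ := norm_sub_le _ _
        _ ≤ _ := by linarith [hρ.2]
    have h4 : 4095 * r ≤ ‖z2 - ρ‖ := by
      have h5 : ‖z2 - z0‖ ≤ ‖z2 - ρ‖ + ‖ρ - z0‖ := by
        calc ‖z2 - z0‖ = ‖(z2 - ρ) + (ρ - z0)‖ := by congr 1; ring
          _ ≤ _ := norm_add_le _ _
      rw [hR] at hd20'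
      linarith [hρ.2]
    linarith
  have hclp : 0 < ‖Pf c z2‖ := by
    rw [norm_pos_iff]
    apply Pf_ne_zero
    intro ρ hρ h2
    rw [hc, Multiset.mem_filter] at hρ
    rw [← h2] at hρ
    rw [hR] at hd20'
    linarith [hρ.2]
  -- the zeros at distance between r and R r
  have hwr : ‖Pf w z1‖ ≤ 49 ^ N * ‖Pf w z2‖ := by
    have h2 : ‖Pf w z1‖ ≤ ((R + 1) * r) ^ (Multiset.card w) := by
      apply Pf_norm_le
      intro ρ hρ
      rw [hw, Multiset.mem_filter, Multiset.mem_filter] at hρ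
      calc ‖z1 - ρ‖ = ‖(z1 - z0) - (ρ - z0)‖ := by congr 1; ring
        _ ≤ ‖z1 - z0‖ + ‖ρ - z0‖ := norm_sub_le _ _
        _ ≤ _ := by
          have := hρ.1.2
          rw [← hRr] at this
          linarith
    have h4 : ((R + 1) * r) ^ (Multiset.card w) ≤ (49 * (R / 8 * r / 6)) ^ (Multiset.card w) := by
      apply pow_le_pow_left₀ (by positivity)
      rw [hR]
      linarith
    have h5 : (49 : ℝ) ^ (Multiset.card w) ≤ 49 ^ N := pow_le_pow_right₀ (by norm_num) hwN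
    calc ‖Pf w z1‖ ≤ (49 * (R / 8 * r / 6)) ^ (Multiset.card w) := h2.trans h4
      _ = 49 ^ (Multiset.card w) * (R / 8 * r / 6) ^ (Multiset.card w) := mul_pow _ _ _
      _ ≤ 49 ^ N * ‖Pf w z2‖ := mul_le_mul h5 hu3 (by positivity) (by positivity)
  have hwp : 0 < ‖Pf w z2‖ := lt_of_lt_of_le (by positivity) hu3
  -- the outer zeros
  have hout : ‖Pf o z1‖ ≤ Real.exp (5 / 2 * N + K * (R * r) / s0) * ‖Pf o z2‖ := by
    have h2 := ratio (s := o) (z := z1) (w := z2) (h := fun ρ => R * r / 2 * (1 / ‖ρ - z0‖)) (by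
      intro ρ hρ
      rw [ho, Multiset.mem_filter, not_le, ← hRr] at hρ
      have hD : R * r < ‖ρ - z0‖ := hρ.2
      have hD0 : 0 < ‖ρ - z0‖ := hRrp.trans hD
      have h4 : ‖ρ - z0‖ / 2 ≤ ‖z2 - ρ‖ := by
        have h5 : ‖ρ - z0‖ ≤ ‖z2 - z0‖ + ‖z2 - ρ‖ := by
          calc ‖ρ - z0‖ = ‖(z2 - z0) - (z2 - ρ)‖ := by congr 1; ring
            _ ≤ _ := norm_sub_le _ _
        have h6 : R * r / 4 + r ≤ R * r / 2 := by
          rw [hR]
          linarith
        linarith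
      have h5 : ‖z1 - ρ‖ ≤ ‖z2 - ρ‖ + R * r / 4 := by
        calc ‖z1 - ρ‖ = ‖(z1 - z2) + (z2 - ρ)‖ := by congr 1; ring
          _ ≤ ‖z1 - z2‖ + ‖z2 - ρ‖ := norm_add_le _ _
          _ ≤ _ := by rw [hd12]; linarith
      have h6 : R * r / 4 ≤ (R * r / 2 * (1 / ‖ρ - z0‖)) * ‖z2 - ρ‖ := by
        have h7 : (R * r / 2 * (1 / ‖ρ - z0‖)) * (‖ρ - z0‖ / 2) = R * r / 4 := by
          field_simp
          ring
        rw [← h7]
        exact mul_le_mul_of_nonneg_left h4 (by positivity)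
      have h8 := Real.add_one_le_exp (R * r / 2 * (1 / ‖ρ - z0‖))
      have h9 : 0 ≤ ‖z2 - ρ‖ := norm_nonneg _
      calc ‖z1 - ρ‖ ≤ (R * r / 2 * (1 / ‖ρ - z0‖) + 1) * ‖z2 - ρ‖ := by linarith
        _ ≤ _ := mul_le_mul_of_nonneg_right h8 h9)
    refine h2.trans ?_
    apply mul_le_mul_of_nonneg_right _ (norm_nonneg _)
    apply Real.exp_le_exp.2
    rw [Multiset.sum_map_mul_left]
    have h4 := outer s z0 hs0p hR1 m
    rw [← ho] at h4
    have h5 : ∑ j ∈ Finset.range m, (Multiset.card (s.filter fun ρ => ‖ρ - z0‖ ≤ s0 / R ^ j) : ℝ) * (R ^ (j + 1) / s0) ≤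
        N * (5 * R ^ m) / s0 := by
      have h6 : ∑ j ∈ Finset.range m, (Multiset.card (s.filter fun ρ => ‖ρ - z0‖ ≤ s0 / R ^ j) : ℝ) * (R ^ (j + 1) / s0) ≤
          ∑ j ∈ Finset.range m, (N / s0) * ((2 : ℝ) ^ (m + 1 - j) * 32768 ^ (j + 1)) := by
        refine Finset.sum_le_sum fun j hj => ?_
        have hj' := Finset.mem_range.1 hj
        have h7 := hsel j (by omega)
        rw [hNk, hm] at h7
        have h8 : (Multiset.card (s.filter fun ρ => ‖ρ - z0‖ ≤ s0 / R ^ j) : ℝ) = n j := by rw [hnk]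
        rw [h8]
        calc n j * (R ^ (j + 1) / s0) ≤ (2 ^ (m + 1 - j) * N) * (R ^ (j + 1) / s0) :=
              mul_le_mul_of_nonneg_right h7 (by positivity)
          _ = _ := by rw [hR]; ring
      refine h6.trans ?_
      rw [← Finset.mul_sum]
      calc (N / s0) * ∑ j ∈ Finset.range m, ((2 : ℝ) ^ (m + 1 - j) * 32768 ^ (j + 1)) ≤ (N / s0) * (5 * 32768 ^ m) :=
            mul_le_mul_of_nonneg_left (geo m) (by positivity)
        _ = _ := by rw [hR]; ring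
    have h6 : (o.map fun ρ => 1 / ‖ρ - z0‖).sum ≤ 2 * K / s0 + 5 * N / (R * r) := by
      have h7 : N * (5 * R ^ m) / s0 = 5 * N / (R * r) := by
        rw [hRr]
        field_simp
      have h8 : (Multiset.card s : ℝ) * (1 / s0) ≤ 2 * K / s0 := by
        rw [mul_one_div]
        exact div_le_div_of_nonneg_right hcard hs0p.le
      linarith
    calc R * r / 2 * (o.map fun ρ => 1 / ‖ρ - z0‖).sum ≤ R * r / 2 * (2 * K / s0 + 5 * N / (R * r)) :=
          mul_le_mul_of_nonneg_left h6 (by positivity)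
      _ = _ := by
        field_simp
        ring
  have hop : 0 < ‖Pf o z2‖ := by
    rw [norm_pos_iff]
    apply Pf_ne_zero
    intro ρ hρ h2
    rw [ho, Multiset.mem_filter, not_le, ← hRr, ← h2] at hρ
    have h6 : R * r / 4 + r ≤ R * r / 2 := by
      rw [hR]
      linarith
    linarith [hρ.2]
  -- the zero-free part
  have hball : ∀ z : ℂ, -(1 / 2) ≤ z.re → z.re ≤ 1 → |z.im| ≤ 1 / 2 → z ∈ closedBall (3 : ℂ) 4 := by
    intro z a1 a2 a3
    rw [mem_closedBall, dist_eq_norm]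
    have h1 := Complex.norm_le_abs_re_add_abs_im (z - 3)
    have h2 : (z - 3 : ℂ).re = z.re - 3 := by simp
    have h3 : (z - 3 : ℂ).im = z.im := by simp
    rw [h2, h3] at h1
    have h4 : |z.re - 3| ≤ 7 / 2 := by rw [abs_le]; constructor <;> linarith
    linarith
  have hr1 : r ≤ 1 / 2 := by
    have : r ≤ R * r := by nlinarith
    linarith
  have hz1b : z1 ∈ closedBall (3 : ℂ) 4 := by
    apply hball
    · rw [hz1]; simp; linarith
    · rw [hz1]; simp; linarith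
    · rw [hz1]; simp; linarith
  have hz2b : z2 ∈ closedBall (3 : ℂ) 4 := by
    apply hball
    · rw [hz2]; simp; linarith
    · rw [hz2]; simp; linarith
    · rw [hz2]; simp; linarith
  have hgr : ‖g z1‖ ≤ ‖g z2‖ * Real.exp (10 * (5 * K + 1) * (x0 - u)) := by
    have h2 := path_grow (g := g) (Q := 10 * (5 * K + 1)) (convex_closedBall (3 : ℂ) 4)
      (fun z hz => hgd z (closedBall_subset_closedBall (by norm_num) hz))
      (fun z hz => hg0 z (closedBall_subset_closedBall (by norm_num) hz)) hld hz2b hz1b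
    rw [hd12] at h2
    exact h2
  have hgp : 0 < ‖g z2‖ := norm_pos_iff.2 (hg0 z2 (closedBall_subset_closedBall (by norm_num) hz2b))
  -- the far part is small
  have hfar : 3 * K * (R * r) / s0 ≤ N := by
    have h2 : R * r / s0 = R / R ^ k := by
      rw [hr]
      field_simp
    have h4 : 3 * K * (R * r) / s0 = 3 * K * R / R ^ k := by
      rw [mul_div_assoc, h2]
      ring
    rw [h4, div_le_iff₀ hRk]
    have h5 : (2 : ℝ) ^ k ≤ R ^ k := pow_le_pow_left₀ (by norm_num) (by rw [hR]; norm_num) k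
    rw [hNk] at hbig
    have h6 : 3 * K * R = 98304 * K := by rw [hR]; ring
    calc 3 * K * R ≤ 2 ^ k * N := by rw [h6]; exact hk1a.trans hbig
      _ ≤ R ^ k * N := mul_le_mul_of_nonneg_right h5 (by linarith)
      _ = _ := mul_comm _ _
  have hexp : K * (R * r) / s0 + 10 * (5 * K + 1) * (x0 - u) + K * (x0 - u) ≤ N := by
    refine le_trans ?_ hfar
    have h2 : 10 * (5 * K + 1) * (x0 - u) + K * (x0 - u) ≤ 61 * K * (R * r / 4) := by
      have h4 : 10 * (5 * K + 1) * (x0 - u) + K * (x0 - u) = (51 * K + 10) * (x0 - u) := by ring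
      rw [h4]
      apply mul_le_mul (by linarith) hxu (by linarith) (by positivity)
    have h5 : 61 * K * (R * r / 4) ≤ 2 * (K * (R * r) / s0) := by
      have h6 : 61 / 4 * s0 ≤ 2 := by linarith
      have h7 : 61 * K * (R * r / 4) = (61 / 4 * s0) * (K * (R * r) / s0) := by
        field_simp
      rw [h7]
      exact mul_le_mul_of_nonneg_right h6 (by positivity)
    have h8 : 3 * K * (R * r) / s0 = 3 * (K * (R * r) / s0) := by ring
    rw [h8]
    linarith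
  -- conclusion
  have hnum : (2 / 4095 : ℝ) * 49 * Real.exp (7 / 2) < 1 := by
    have h2 := Real.exp_one_lt_d9
    have h4 : Real.exp (7 / 2) ^ 2 = Real.exp 1 ^ 7 := by
      rw [← Real.exp_nat_mul, ← Real.exp_nat_mul]
      norm_num
    have h5 : Real.exp 1 ^ 7 ≤ 2.7182818286 ^ 7 := pow_le_pow_left₀ (Real.exp_pos 1).le h2.le 7
    have h6 : (2.7182818286 : ℝ) ^ 7 < 40 ^ 2 := by norm_num
    have h7 : Real.exp (7 / 2) < 40 := by
      apply lt_of_pow_lt_pow_left₀ 2 (by norm_num)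
      linarith
    linarith
  have hP1 : Pf s z1 = Pf c z1 * Pf w z1 * Pf o z1 := by
    conv_lhs => rw [hsplit]
    rw [Pf_add, Pf_add]
  have hP2 : Pf s z2 = Pf c z2 * Pf w z2 * Pf o z2 := by
    conv_lhs => rw [hsplit]
    rw [Pf_add, Pf_add]
  rw [hfg z1, hfg z2, hP1, hP2]
  simp only [norm_mul]
  obtain ⟨P, hP⟩ : ∃ P : ℝ, P = ‖Pf c z2‖ * ‖Pf w z2‖ * ‖Pf o z2‖ * ‖g z2‖ := ⟨_, rfl⟩
  have hPp : 0 < P := by rw [hP]; positivity
  rw [← hP]
  calc ‖Pf c z1‖ * ‖Pf w z1‖ * ‖Pf o z1‖ * ‖g z1‖ * Real.exp (K * (x0 - u))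
      ≤ ((2 / 4095) ^ N * ‖Pf c z2‖) * (49 ^ N * ‖Pf w z2‖) * (Real.exp (5 / 2 * N + K * (R * r) / s0) * ‖Pf o z2‖) *
        (‖g z2‖ * Real.exp (10 * (5 * K + 1) * (x0 - u))) * Real.exp (K * (x0 - u)) := by
        gcongr
    _ = (2 / 4095) ^ N * 49 ^ N * (Real.exp (5 / 2 * N + K * (R * r) / s0) * Real.exp (10 * (5 * K + 1) * (x0 - u)) *
        Real.exp (K * (x0 - u))) * P := by rw [hP]; ring
    _ = (2 / 4095) ^ N * 49 ^ N * Real.exp (5 / 2 * N + (K * (R * r) / s0 + 10 * (5 * K + 1) * (x0 - u) + K * (x0 - u))) * P := by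
        rw [← Real.exp_add, ← Real.exp_add]
        congr 2
        ring_nf
    _ ≤ (2 / 4095) ^ N * 49 ^ N * Real.exp (5 / 2 * N + N) * P := by gcongr
    _ = ((2 / 4095) * 49 * Real.exp (7 / 2)) ^ N * P := by
        rw [mul_pow, mul_pow, ← Real.exp_nat_mul]
        congr 3
        ring
    _ < 1 * P := by
        apply mul_lt_mul_of_pos_right _ hPp
        apply pow_lt_one₀ (by positivity) hnum
        have : 1 ≤ N := by exact_mod_cast hN1
        omega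
    _ = P := one_mul P

end Pool.Agent.Zk5.HR3
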