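import Pool.Agent.Zk69.H5.Exp

set_option autoImplicit false

/-! # The measure of the heights that are bad for `θ`, from a density estimate, uniformly in `θ` -/

namespace Pool.Agent.Zk5.HR3

open MeasureTheory Set Complex Filter Asymptotics
open Pool.Agent.Zk69.Hx (IncF DecF incF_of decF_of_incF far_measure)
open Pool.Agent.Zk69.H5 (NR NR_nonneg NR_mono DS_nonneg)
open Pool.Agent.Zk5.HR (vol vol_fin)
open H370 (mult Zf)

/-- staircase -/
theorem stair {x h : ℝ} (hh : 0 < h) : ∀ K : ℕ, x ≤ K * h → x ≤ h * ∑ k ∈ Finset.range K, (if (k : ℝ) * h < x then (1 : ℝ) else 0) := by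
  intro K
  induction K with
  | zero =>
    intro hx
    simpa using hx
  | succ K ih =>
    intro hx
    rw [Finset.sum_range_succ]
    by_cases h1 : x ≤ K * h
    · have h2 := ih h1
      have h3 : (0 : ℝ) ≤ if (K : ℝ) * h < x then (1 : ℝ) else 0 := by split_ifs <;> norm_num
      nlinarith
    · rw [not_le] at h1
      have h2 : ∀ k ∈ Finset.range K, (if (k : ℝ) * h < x then (1 : ℝ) else 0) = 1 := by
        intro k hk
        have h3 : (k : ℝ) ≤ K := by exact_mod_cast (Finset.mem_range.1 hk).le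
        rw [if_pos (by nlinarith)]
      rw [Finset.sum_congr rfl h2, if_pos h1]
      simp only [Finset.sum_const, Finset.card_range, nsmul_eq_mul, mul_one]
      push_cast at hx
      linarith

theorem DS_stair {θ T h : ℝ} {K : ℕ} (hh : 0 < h) (hK : 1 ≤ K * h) (hθ : 0 ≤ θ) :
    Pool.Agent.Zk69.H5.DS θ T ≤ h * ∑ k ∈ Finset.range K, NR (θ + k * h) T := by
  classical
  unfold Pool.Agent.Zk69.H5.DS NR
  have h1 : ∀ s ∈ Zf riemannZeta 1 T, (mult riemannZeta s : ℝ) * max (s.re - θ) 0 ≤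
      h * ∑ k ∈ Finset.range K, (if θ + k * h < s.re then (mult riemannZeta s : ℝ) else 0) := by
    intro s hs
    rw [H370.mem_Zf H370.good_zeta le_rfl] at hs
    obtain ⟨h1, h2, h3, h4, h5⟩ := hs
    have hm : (0 : ℝ) ≤ mult riemannZeta s := Nat.cast_nonneg _
    have e : h * ∑ k ∈ Finset.range K, (if θ + k * h < s.re then (mult riemannZeta s : ℝ) else 0) =
        (mult riemannZeta s : ℝ) * (h * ∑ k ∈ Finset.range K, (if (k : ℝ) * h < s.re - θ then (1 : ℝ) else 0)) := by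
      rw [← mul_assoc, mul_comm (mult riemannZeta s : ℝ) h, mul_assoc]
      congr 1
      rw [Finset.mul_sum]
      refine Finset.sum_congr rfl fun k _ => ?_
      have h6 : θ + k * h < s.re ↔ (k : ℝ) * h < s.re - θ := by constructor <;> intro h7 <;> linarith
      simp only [h6]
      split_ifs <;> simp
    rw [e]
    refine mul_le_mul_of_nonneg_left ?_ hm
    rcases le_or_gt (s.re - θ) 0 with h6 | h6
    · rw [max_eq_right h6]
      have h7 : 0 ≤ ∑ k ∈ Finset.range K, (if (k : ℝ) * h < s.re - θ then (1 : ℝ) else 0) :=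
        Finset.sum_nonneg fun k _ => by split_ifs <;> norm_num
      positivity
    · rw [max_eq_left h6.le]
      exact stair hh K (by linarith)
  refine (Finset.sum_le_sum h1).trans (le_of_eq ?_)
  rw [← Finset.mul_sum, Finset.sum_comm]
  congr 1
  refine Finset.sum_congr rfl fun k _ => ?_
  rw [Finset.sum_filter]

/-- no zeros to the right of `1` -/
theorem NR_zero {θ T : ℝ} (hθ : 1 ≤ θ) : NR θ T = 0 := by
  classical
  unfold NR
  apply Finset.sum_eq_zero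
  intro s hs
  rw [Finset.mem_filter, H370.mem_Zf H370.good_zeta le_rfl] at hs
  linarith [hs.1.2.1, hs.2]

theorem ds_bound {c : ℝ} (hc : 1 ≤ c)
    (hd : ∃ C : ℝ, 0 < C ∧ ∀ σ T : ℝ, 1 / 2 ≤ σ → σ ≤ 1 → 2 ≤ T → NR σ T ≤ C * T ^ (1 - c * (σ - 1 / 2)) * Real.log T) :
    ∃ C : ℝ, 0 < C ∧ ∀ θ T : ℝ, 1 / 2 ≤ θ → θ ≤ 1 → 2 ≤ T →
      Pool.Agent.Zk69.H5.DS θ T ≤ C * T ^ (1 - c * (θ - 1 / 2)) := by
  obtain ⟨C, hC, hd⟩ := hd
  refine ⟨2 * C, by positivity, fun θ T h1 h2 h3 => ?_⟩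
  have hT0 : 0 < T := by linarith
  obtain ⟨l, hl⟩ : ∃ l : ℝ, l = Real.log T := ⟨_, rfl⟩
  have hl0 : 0 < l := by rw [hl]; exact Real.log_pos (by linarith)
  have hK : 1 ≤ (⌈l⌉₊ : ℝ) * (1 / l) := by
    rw [mul_one_div, le_div_iff₀ hl0, one_mul]
    exact Nat.le_ceil l
  have h4 := DS_stair (θ := θ) (T := T) (h := 1 / l) (K := ⌈l⌉₊) (by positivity) hK (by linarith)
  refine h4.trans ?_
  have h5 : ∀ k ∈ Finset.range ⌈l⌉₊, NR (θ + k * (1 / l)) T ≤ (C * T ^ (1 - c * (θ - 1 / 2)) * l) * (1 / 2) ^ k := by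
    intro k _
    have hk0 : 0 ≤ (k : ℝ) * (1 / l) := by positivity
    rcases le_or_gt (θ + k * (1 / l)) 1 with h6 | h6
    · refine (hd _ T (by linarith) h6 h3).trans ?_
      have h7 : T ^ (1 - c * (θ + k * (1 / l) - 1 / 2)) = T ^ (1 - c * (θ - 1 / 2)) * Real.exp (-c * k) := by
        rw [Real.rpow_def_of_pos hT0, Real.rpow_def_of_pos hT0, ← Real.exp_add, ← hl]
        congr 1
        field_simp
        ring
      have h8 : Real.exp (-c * k) ≤ (1 / 2) ^ k := by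
        have h9 : Real.exp (-c * k) ≤ Real.exp (-1 * k) := by
          apply Real.exp_le_exp.2
          have : (0 : ℝ) ≤ k := Nat.cast_nonneg _
          nlinarith
        refine h9.trans ?_
        rw [mul_comm, Real.exp_nat_mul]
        apply pow_le_pow_left₀ (Real.exp_pos _).le
        rw [Real.exp_neg, one_div]
        apply inv_anti₀ (by norm_num)
        linarith [Real.exp_one_gt_d9]
      rw [h7, ← hl]
      have h10 : 0 ≤ C * T ^ (1 - c * (θ - 1 / 2)) * l := by positivity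
      calc C * (T ^ (1 - c * (θ - 1 / 2)) * Real.exp (-c * k)) * l =
          (C * T ^ (1 - c * (θ - 1 / 2)) * l) * Real.exp (-c * k) := by ring
        _ ≤ _ := mul_le_mul_of_nonneg_left h8 h10
    · rw [NR_zero h6.le]
      positivity
  have h6 : ∑ k ∈ Finset.range ⌈l⌉₊, NR (θ + k * (1 / l)) T ≤ (C * T ^ (1 - c * (θ - 1 / 2)) * l) * 2 := by
    refine (Finset.sum_le_sum h5).trans ?_
    rw [← Finset.mul_sum]
    refine mul_le_mul_of_nonneg_left ?_ (by positivity)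
    have h7 : ∑ k ∈ Finset.range ⌈l⌉₊, ((1 : ℝ) / 2) ^ k ≤ ∑' k : ℕ, ((1 : ℝ) / 2) ^ k :=
      Summable.sum_le_tsum _ (fun k _ => by positivity) summable_geometric_two
    rwa [tsum_geometric_two] at h7
  calc 1 / l * ∑ k ∈ Finset.range ⌈l⌉₊, NR (θ + k * (1 / l)) T ≤ 1 / l * ((C * T ^ (1 - c * (θ - 1 / 2)) * l) * 2) :=
        mul_le_mul_of_nonneg_left h6 (by positivity)
    _ = _ := by field_simp

/-- the heights that are bad for `θ`, for `ξ` or for `ζ` -/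
theorem vol_le_ds {θ T : ℝ} (hθ : 1 / 2 ≤ θ) : vol {t : ℝ | ¬ (IncF θ t ∧ DecF θ t)} T ≤
    10 + 2 * ((θ - 1 / 2) * NR θ (T + 1) + Pool.Agent.Zk69.H5.DS θ (T + 1)) := by
  classical
  have hsub : {t : ℝ | ¬ (IncF θ t ∧ DecF θ t)} ∩ Icc 0 T ⊆ Icc 0 8 ∪ ({t : ℝ | ¬ IncF θ t} ∩ Icc (3 / 2) T) := by
    rintro t ⟨h1, h2⟩
    rcases le_or_gt t 8 with h3 | h3
    · exact Or.inl ⟨h2.1, h3⟩
    · exact Or.inr ⟨fun h4 => h1 ⟨h4, decF_of_incF hθ h3.le h4⟩, by linarith, h2.2⟩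
  have h4 := far_measure (θ := θ) (A := 3 / 2) (X := T) hθ le_rfl
  rw [show (3 / 2 - 1 / 2 : ℝ) = 1 by norm_num] at h4
  have h5 : ∑ s ∈ Zf riemannZeta 1 (T + 1 / 2), (if θ < s.re then (mult riemannZeta s : ℝ) * |s.re - 1 / 2| else 0) ≤
      (θ - 1 / 2) * NR θ (T + 1 / 2) + Pool.Agent.Zk69.H5.DS θ (T + 1 / 2) := by
    unfold NR Pool.Agent.Zk69.H5.DS
    rw [Finset.sum_filter, Finset.mul_sum, ← Finset.sum_add_distrib]
    refine Finset.sum_le_sum fun s hs => ?_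
    have hm : (0 : ℝ) ≤ mult riemannZeta s := Nat.cast_nonneg _
    split_ifs with h
    · rw [abs_of_nonneg (by linarith), max_eq_left (by linarith)]
      apply le_of_eq
      ring
    · have : 0 ≤ max (s.re - θ) 0 := le_max_right _ _
      positivity
  have h6 := NR_mono θ (show T + 1 / 2 ≤ T + 1 by linarith)
  have h7 : Pool.Agent.Zk69.H5.DS θ (T + 1 / 2) ≤ Pool.Agent.Zk69.H5.DS θ (T + 1) := by
    unfold Pool.Agent.Zk69.H5.DS
    refine Finset.sum_le_sum_of_subset_of_nonneg ?_ fun s _ _ => mul_nonneg (Nat.cast_nonneg _) (le_max_right _ _)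
    intro s hs
    rw [H370.mem_Zf H370.good_zeta le_rfl] at hs ⊢
    obtain ⟨h1, h2, h3, h4, h5⟩ := hs
    exact ⟨h1, h2, h3, h4.trans (by linarith), h5⟩
  have h8 : (θ - 1 / 2) * NR θ (T + 1 / 2) ≤ (θ - 1 / 2) * NR θ (T + 1) := mul_le_mul_of_nonneg_left h6 (by linarith)
  obtain ⟨S, hS⟩ : ∃ S : ℝ, S = 2 * ((θ - 1 / 2) * NR θ (T + 1) + Pool.Agent.Zk69.H5.DS θ (T + 1)) := ⟨_, rfl⟩
  rw [← hS]
  have hS0 : 0 ≤ S := by
    rw [hS]
    have h9 := DS_nonneg θ (T + 1)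
    have h10 := NR_nonneg θ (T + 1)
    have h11 : 0 ≤ (θ - 1 / 2) * NR θ (T + 1) := mul_nonneg (by linarith) h10
    linarith
  have h1 : volume ({t : ℝ | ¬ (IncF θ t ∧ DecF θ t)} ∩ Icc 0 T) ≤ ENNReal.ofReal (8 + S) := by
    refine (measure_mono hsub).trans ((measure_union_le _ _).trans ?_)
    rw [Real.volume_Icc, ENNReal.ofReal_add (by norm_num) hS0, sub_zero]
    exact add_le_add le_rfl (h4.trans (ENNReal.ofReal_le_ofReal (by linarith)))
  have h2 := ENNReal.toReal_mono ENNReal.ofReal_ne_top h1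
  rw [ENNReal.toReal_ofReal (by linarith)] at h2
  unfold vol
  linarith

theorem unif_of {c c' : ℝ} (hc : 1 ≤ c) (hcc : c < c') (hc4 : c' ≤ 2)
    (hd : ∃ C : ℝ, 0 < C ∧ ∀ σ T : ℝ, 1 / 2 ≤ σ → σ ≤ 1 → 2 ≤ T → NR σ T ≤ C * T ^ (1 - c' * (σ - 1 / 2)) * Real.log T) :
    ∃ C : ℝ, 0 < C ∧ ∀ θ T : ℝ, 1 / 2 ≤ θ → θ ≤ 1 → 2 ≤ T →
      vol {t : ℝ | ¬ (IncF θ t ∧ DecF θ t)} T ≤ C * T ^ (1 - c * (θ - 1 / 2)) := by
  obtain ⟨C1, hC1, h1⟩ := ds_bound (by linarith) hd
  obtain ⟨C2, hC2, h2⟩ := hd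
  refine ⟨10 + 4 * (C2 / (c' - c) + C1), by have : 0 < c' - c := by linarith
                                            positivity, fun θ T g1 g2 g3 => ?_⟩
  have hcc0 : 0 < c' - c := by linarith
  obtain ⟨u, hu⟩ : ∃ u : ℝ, u = θ - 1 / 2 := ⟨_, rfl⟩
  have hu0 : 0 ≤ u := by rw [hu]; linarith
  have hu1 : u ≤ 1 / 2 := by rw [hu]; linarith
  obtain ⟨X, hX⟩ : ∃ X : ℝ, X = T + 1 := ⟨_, rfl⟩
  have hX2 : 2 ≤ X := by rw [hX]; linarith
  have hX0 : 0 < X := by linarith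
  have hXT : X ≤ 2 * T := by rw [hX]; linarith
  have hlX : 0 ≤ Real.log X := Real.log_nonneg (by linarith)
  have h3 := vol_le_ds (T := T) g1
  rw [← hX, ← hu] at h3
  have h4 := h1 θ X g1 g2 hX2
  have h5 := h2 θ X g1 g2 hX2
  rw [← hu] at h4 h5
  rw [← hu]
  have hmono : X ^ (1 - c' * u) ≤ X ^ (1 - c * u) := by
    apply Real.rpow_le_rpow_of_exponent_le (by linarith)
    nlinarith
  -- the first term
  have h6 : u * NR θ X ≤ C2 / (c' - c) * X ^ (1 - c * u) := by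
    have h7 : (c' - c) * u * Real.log X ≤ X ^ ((c' - c) * u) := by
      have h8 := Real.add_one_le_exp ((c' - c) * u * Real.log X)
      rw [Real.rpow_def_of_pos hX0, mul_comm (Real.log X)]
      linarith
    have h9 : X ^ ((c' - c) * u) * X ^ (1 - c' * u) = X ^ (1 - c * u) := by
      rw [← Real.rpow_add hX0]
      congr 1
      ring
    calc u * NR θ X ≤ u * (C2 * X ^ (1 - c' * u) * Real.log X) := mul_le_mul_of_nonneg_left h5 hu0
      _ = C2 / (c' - c) * (((c' - c) * u * Real.log X) * X ^ (1 - c' * u)) := by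
        field_simp
      _ ≤ C2 / (c' - c) * (X ^ ((c' - c) * u) * X ^ (1 - c' * u)) := by
        refine mul_le_mul_of_nonneg_left ?_ (by positivity)
        exact mul_le_mul_of_nonneg_right h7 (by positivity)
      _ = _ := by rw [h9]
  have h7 : Pool.Agent.Zk69.H5.DS θ X ≤ C1 * X ^ (1 - c * u) :=
    h4.trans (mul_le_mul_of_nonneg_left hmono hC1.le)
  have hcu : 0 ≤ 1 - c * u := by nlinarith
  have hcu1 : 1 - c * u ≤ 1 := by nlinarith
  have h8 : X ^ (1 - c * u) ≤ 2 * T ^ (1 - c * u) := by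
    calc X ^ (1 - c * u) ≤ (2 * T) ^ (1 - c * u) := Real.rpow_le_rpow hX0.le hXT hcu
      _ = 2 ^ (1 - c * u) * T ^ (1 - c * u) := Real.mul_rpow (by norm_num) (by linarith)
      _ ≤ 2 * T ^ (1 - c * u) := by
        refine mul_le_mul_of_nonneg_right ?_ (by positivity)
        calc (2 : ℝ) ^ (1 - c * u) ≤ 2 ^ (1 : ℝ) := Real.rpow_le_rpow_of_exponent_le (by norm_num) hcu1
          _ = 2 := Real.rpow_one 2
  have h9 : 1 ≤ T ^ (1 - c * u) := Real.one_le_rpow (by linarith) hcu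
  have h10 : 0 < C2 / (c' - c) := by positivity
  have h11 : u * NR θ X + Pool.Agent.Zk69.H5.DS θ X ≤ (C2 / (c' - c) + C1) * (2 * T ^ (1 - c * u)) := by
    calc u * NR θ X + Pool.Agent.Zk69.H5.DS θ X ≤ (C2 / (c' - c) + C1) * X ^ (1 - c * u) := by linarith
      _ ≤ _ := mul_le_mul_of_nonneg_left h8 (by positivity)
  linarith

end Pool.Agent.Zk5.HR3
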