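import Pool.Agent.Zk5.HR3.Cone
import Pool.Agent.Zk5.HR.DetZ
import Pool.Agent.Zk5.HR.Dec
import Pool.Agent.H388LH.ZG
import Pool.Agent.H24R2.DZ.XB

set_option autoImplicit false

/-! # The cone lemma for `ξ` and `ζ` -/

namespace Pool.Agent.Zk5.HR3

open Complex Filter Topology MeasureTheory Set
open Pool.Agent.H24R2.JP (XX HH Om)
open Pool.Agent.Zk4
open Pool.Agent.Zk5.HR
open Pool.Agent.Zk69.Hx (IncF DecF decF_of_incF)
open scoped ComplexConjugate

theorem norm_refl (t : ℝ) (z : ℂ) : ‖XX (I * t + z)‖ = ‖XX (I * t + -(conj z))‖ := by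
  have e : I * (t : ℂ) + -(conj z) = -(conj (I * t + z)) := by
    apply Complex.ext
    · simp
    · simp
      ring
  rw [e, Pool.Agent.H24R2.JP.B1h.XX_neg, Pool.Agent.H24R2.JP.B1h.XX_conj, RCLike.norm_conj]

theorem xx_bound : ∃ T0 : ℝ, 400 ≤ T0 ∧ ∀ t : ℝ, T0 ≤ t → XX (I * t + 3) ≠ 0 ∧
    ∀ z : ℂ, ‖z‖ ≤ 14 → ‖XX (I * t + z)‖ ≤ Real.exp (20 * Real.log t) * ‖XX (I * t + 3)‖ := by
  obtain ⟨K, hK, h⟩ := Pool.Agent.H24R2.JP.StirAux.bound1
  refine ⟨max 400 (Real.exp (2 * K)), le_max_left _ _, ?_⟩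
  intro t ht
  have ht4 : 400 ≤ t := (le_max_left _ _).trans ht
  have ht0 : 0 < t := by linarith
  have hlog : 2 * K ≤ Real.log t := by
    rw [Real.le_log_iff_exp_le (by linarith)]
    exact (le_max_right _ _).trans ht
  have hl0 : 0 ≤ Real.log t := by linarith
  have hsub : ∀ z ∈ Metric.closedBall (I * (t : ℂ)) (t / 4), ‖z - I * t‖ ≤ t / 4 := by
    intro z hz
    rwa [Metric.mem_closedBall, dist_eq_norm] at hz
  have hmem : ∀ z : ℂ, ‖z‖ ≤ 14 → I * (t : ℂ) + z ∈ Metric.closedBall (I * (t : ℂ)) (t / 4) := by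
    intro z hz
    rw [Metric.mem_closedBall, dist_eq_norm]
    have e : I * (t : ℂ) + z - I * t = z := by ring
    rw [e]
    linarith
  have h3n : ‖(3 : ℂ)‖ ≤ 14 := by
    rw [show ‖(3 : ℂ)‖ = 3 by simp]
    norm_num
  have hg : ∀ z : ℂ, ‖z‖ ≤ 14 → ‖HH (I * t + z)‖ ≤ ‖HH (I * t + 3)‖ * Real.exp (Real.log t * 17) := by
    intro z hz
    have h1 := path_grow (g := HH) (Q := Real.log t) (convex_closedBall (I * (t : ℂ)) (t / 4))
      (fun z hz => Pool.Agent.H24R2.JP.StirAux.HH_diff (h t z ht4 (hsub z hz)).1)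
      (fun z hz => Pool.Agent.H24R2.JP.StirAux.HH_ne (h t z ht4 (hsub z hz)).1)
      (fun z hz => by
        have h3 := (h t z ht4 (hsub z hz)).2
        have h4 := norm_le_norm_add_norm_sub' (logDeriv HH z) (Om t : ℂ)
        have h5 : ‖(Om t : ℂ)‖ = Real.log t / 2 := by
          rw [Complex.norm_real, Real.norm_eq_abs, abs_of_nonneg]
          · rfl
          · unfold Om
            linarith
        rw [h5] at h4
        linarith) (hmem 3 h3n) (hmem z hz)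
    have h2 : ‖I * (t : ℂ) + z - (I * t + 3)‖ ≤ 17 := by
      have e : I * (t : ℂ) + z - (I * t + 3) = z - 3 := by ring
      rw [e]
      refine (norm_sub_le _ _).trans ?_
      rw [show ‖(3 : ℂ)‖ = 3 by simp]
      linarith
    refine h1.trans (mul_le_mul_of_nonneg_left ?_ (norm_nonneg _))
    apply Real.exp_le_exp.2
    exact mul_le_mul_of_nonneg_left h2 hl0
  have hHH3 : HH (I * t + 3) ≠ 0 := Pool.Agent.H24R2.JP.StirAux.HH_ne (by simpa using ht0)
  have hX3 : XX (I * t + 3) = HH (I * t + 3) * riemannZeta (1 / 2 + (I * t + 3)) :=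
    Pool.Agent.H24R2.JP.ZetaTask.part1 (I * t + 3) (by simpa using ht0)
  have hz3 : 1 / 2 ≤ ‖riemannZeta (1 / 2 + (I * t + 3))‖ := by
    have h1 := Pool.Agent.H24R2.DZ.XBAux.z1 (s := 1 / 2 + (I * t + 3)) (by simp)
    have h2 := norm_sub_norm_le (1 : ℂ) (1 - riemannZeta (1 / 2 + (I * t + 3)))
    rw [sub_sub_cancel, norm_one, norm_sub_rev] at h2
    linarith
  have hX3n : ‖HH (I * t + 3)‖ ≤ 2 * ‖XX (I * t + 3)‖ := by
    rw [hX3, norm_mul]
    nlinarith [norm_nonneg (HH (I * t + 3))]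
  refine ⟨?_, ?_⟩
  · rw [hX3]
    refine mul_ne_zero hHH3 fun h0 => ?_
    rw [h0, norm_zero] at hz3
    linarith
  · have main : ∀ z : ℂ, ‖z‖ ≤ 14 → 0 ≤ z.re → ‖XX (I * t + z)‖ ≤ Real.exp (20 * Real.log t) * ‖XX (I * t + 3)‖ := by
      intro z hz hre
      have himz := abs_le.1 ((Complex.abs_im_le_norm z).trans hz)
      have him : 0 < (I * (t : ℂ) + z).im := by
        simp
        linarith
      rw [Pool.Agent.H24R2.JP.ZetaTask.part1 _ him, norm_mul]
      have hzt : ‖riemannZeta (1 / 2 + (I * t + z))‖ ≤ 12 * t := by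
        have h1 := Pool.Agent.H388LH.zeta_growth (s := 1 / 2 + (I * t + z)) (by simp; linarith) (by simp; linarith)
        have h2 : ‖(1 / 2 + (I * (t : ℂ) + z) : ℂ)‖ ≤ 1 / 2 + (t + 14) := by
          refine (norm_add_le _ _).trans (add_le_add ?_ ((norm_add_le _ _).trans (add_le_add ?_ hz)))
          · rw [show ‖(1 / 2 : ℂ)‖ = 1 / 2 by norm_num]
          · rw [norm_mul, Complex.norm_I, one_mul, Complex.norm_real, Real.norm_eq_abs, abs_of_pos ht0]
        linarith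
      have h24 : Real.exp (Real.log t * 17) * (24 * t) ≤ Real.exp (20 * Real.log t) := by
        have e1 : Real.exp (20 * Real.log t) = Real.exp (Real.log t * 17) * (Real.exp (Real.log t) * Real.exp (Real.log t) * Real.exp (Real.log t)) := by
          rw [← Real.exp_add, ← Real.exp_add, ← Real.exp_add]
          congr 1
          ring
        rw [e1, Real.exp_log ht0]
        apply mul_le_mul_of_nonneg_left _ (Real.exp_pos _).le
        nlinarith [mul_pos ht0 ht0]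
      calc ‖HH (I * t + z)‖ * ‖riemannZeta (1 / 2 + (I * t + z))‖ ≤
          (‖HH (I * t + 3)‖ * Real.exp (Real.log t * 17)) * (12 * t) :=
            mul_le_mul (hg z hz) hzt (norm_nonneg _) (by positivity)
        _ ≤ ((2 * ‖XX (I * t + 3)‖) * Real.exp (Real.log t * 17)) * (12 * t) := by gcongr
        _ = (Real.exp (Real.log t * 17) * (24 * t)) * ‖XX (I * t + 3)‖ := by ring
        _ ≤ _ := mul_le_mul_of_nonneg_right h24 (norm_nonneg _)
    intro z hz
    rcases le_total 0 z.re with h1 | h1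
    · exact main z hz h1
    · rw [norm_refl]
      apply main
      · rw [norm_neg, RCLike.norm_conj]
        exact hz
      · rw [Complex.neg_re, Complex.conj_re]
        linarith

/-- the cone lemma for `XX` -/
theorem xx_cone : ∃ T0 : ℝ, 400 ≤ T0 ∧ ∀ γ x0 d t : ℝ, T0 ≤ γ → XX (I * γ + x0) = 0 → 0 ≤ x0 → x0 ≤ 1 →
    0 < d → d ≤ 1 / 2 → |t - γ| ≤ d / Real.log γ ^ 16 →
    ∃ u : ℝ, x0 - d ≤ u ∧ u < x0 ∧ ‖XX (I * t + x0)‖ * Real.exp (Real.log t * (x0 - u)) < ‖XX (I * t + u)‖ := by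
  obtain ⟨T0, hT0, h⟩ := xx_bound
  obtain ⟨M, hM⟩ : ∃ M : ℝ, M = 4 * (196608 * 20) ^ 15 := ⟨_, rfl⟩
  have hM1 : 1 ≤ M := by rw [hM]; norm_num
  refine ⟨max T0 (Real.exp M), hT0.trans (le_max_left _ _), ?_⟩
  intro γ x0 d t hγ hz h0 h1 hd hd1 ht
  have hγ1 : T0 ≤ γ := (le_max_left _ _).trans hγ
  have hγ0 : 0 < γ := by linarith
  have hlM : M ≤ Real.log γ := by
    rw [Real.le_log_iff_exp_le hγ0]
    exact (le_max_right _ _).trans hγ
  have hl1 : 1 ≤ Real.log γ := hM1.trans hlM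
  obtain ⟨h3, hb⟩ := h γ hγ1
  have h3p : 0 < ‖XX (I * γ + 3)‖ := norm_pos_iff.2 h3
  obtain ⟨f, hf⟩ : ∃ f : ℂ → ℂ, f = fun z => XX (I * γ + z) / XX (I * γ + 3) := ⟨_, rfl⟩
  have hfd : Differentiable ℂ f := by
    rw [hf]
    exact (Pool.Agent.H24R2.JP.B1h.XX_diff.comp ((differentiable_const _).add differentiable_id)).div_const _
  have hf3 : f 3 = 1 := by rw [hf]; exact div_self h3
  have hfb : ∀ z : ℂ, ‖z‖ ≤ 14 → ‖f z‖ ≤ Real.exp (20 * Real.log γ) := by
    intro z hz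
    rw [hf]
    simp only
    rw [norm_div, div_le_iff₀ h3p]
    exact hb z hz
  have hf0 : f x0 = 0 := by rw [hf]; simp only; rw [hz, zero_div]
  have hy : |t - γ| ≤ (d / 4) / (196608 * (20 * Real.log γ)) ^ 15 := by
    refine ht.trans ?_
    have e : (d / 4) / (196608 * (20 * Real.log γ)) ^ 15 = d / (M * Real.log γ ^ 15) := by
      rw [hM, show (196608 * (20 * Real.log γ)) = (196608 * 20) * Real.log γ by ring, mul_pow]
      field_simp
    rw [e]
    apply div_le_div_of_nonneg_left hd.le (by positivity)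
    calc M * Real.log γ ^ 15 ≤ Real.log γ * Real.log γ ^ 15 := mul_le_mul_of_nonneg_right hlM (by positivity)
      _ = _ := by ring
  obtain ⟨u, hu1, hu2, hu3⟩ := cone (K := 20 * Real.log γ) (by linarith) hfd hf3 hfb hf0 h0 h1 hd hd1 hy
  refine ⟨u, hu1, hu2, ?_⟩
  have e1 : ∀ x : ℝ, I * (γ : ℂ) + (x + ((t - γ : ℝ) : ℂ) * I) = I * t + x := by
    intro x
    push_cast
    ring
  have e2 : ∀ x : ℝ, ‖f (x + ((t - γ : ℝ) : ℂ) * I)‖ = ‖XX (I * t + x)‖ / ‖XX (I * γ + 3)‖ := by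
    intro x
    rw [hf]
    simp only
    rw [e1, norm_div]
  rw [e2, e2] at hu3
  have h4 : ‖XX (I * t + x0)‖ * Real.exp (20 * Real.log γ * (x0 - u)) < ‖XX (I * t + u)‖ := by
    rw [div_mul_eq_mul_div] at hu3
    exact (div_lt_div_iff_of_pos_right h3p).1 hu3
  refine lt_of_le_of_lt ?_ h4
  apply mul_le_mul_of_nonneg_left _ (norm_nonneg _)
  apply Real.exp_le_exp.2
  apply mul_le_mul_of_nonneg_right _ (by linarith)
  have htd : |t - γ| ≤ 1 := by
    refine ht.trans ?_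
    rw [div_le_one (by positivity)]
    have : 1 ≤ Real.log γ ^ 16 := one_le_pow₀ hl1
    linarith
  have ht' := abs_le.1 htd
  have h5 : Real.log t ≤ Real.log (γ ^ 2) := by
    apply Real.log_le_log (by linarith)
    nlinarith
  rw [Real.log_pow] at h5
  push_cast at h5
  linarith

/-- **every zero to the right of `θ` destroys the monotonicity in a cone of heights** -/
theorem local_zero : ∃ T0 : ℝ, 400 ≤ T0 ∧ ∀ (θ t : ℝ) (ρ : ℂ), 1 / 2 ≤ θ → riemannZeta ρ = 0 → θ < ρ.re →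
    T0 ≤ ρ.im → |t - ρ.im| ≤ (ρ.re - θ) / Real.log ρ.im ^ 16 → ¬ IncF θ t ∧ ¬ DecF θ t := by
  obtain ⟨T0, hT0, h⟩ := xx_cone
  obtain ⟨T1, hT1, hgrow⟩ := hh_grow
  refine ⟨max T0 (T1 + 1), hT0.trans (le_max_left _ _), ?_⟩
  intro θ t ρ hθ hz hre him ht
  have him0 : T0 ≤ ρ.im := (le_max_left _ _).trans him
  have him1 : T1 + 1 ≤ ρ.im := (le_max_right _ _).trans him
  have hre1 : ρ.re < 1 := by
    by_contra hcon
    exact riemannZeta_ne_zero_of_one_le_re (not_lt.1 hcon) hz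
  have hX : XX (ρ - 1 / 2) = 0 := (Pool.Agent.Y23.isZ_iff ρ).1 ⟨hz, by linarith, hre1⟩
  have e : (ρ - 1 / 2 : ℂ) = I * (ρ.im : ℂ) + ((ρ.re - 1 / 2 : ℝ) : ℂ) := by
    apply Complex.ext <;> simp
  rw [e] at hX
  have hl1 : 1 ≤ Real.log ρ.im := by
    rw [Real.le_log_iff_exp_le (by linarith)]
    linarith [Real.exp_one_lt_d9]
  have htd : |t - ρ.im| ≤ 1 := by
    refine ht.trans ?_
    rw [div_le_one (by positivity)]
    have : 1 ≤ Real.log ρ.im ^ 16 := one_le_pow₀ hl1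
    linarith
  have ht' := abs_le.1 htd
  have htT : T1 ≤ t := by linarith
  have ht8 : 8 ≤ t := by linarith
  have ht0 : 0 < t := by linarith
  obtain ⟨u, hu1, hu2, hu3⟩ := h ρ.im (ρ.re - 1 / 2) (ρ.re - θ) t him0 hX (by linarith) (by linarith) (by linarith)
    (by linarith) ht
  have hnd : ¬ DecF θ t := by
    intro hA
    obtain ⟨x0, hx0⟩ : ∃ x0 : ℝ, x0 = ρ.re - 1 / 2 := ⟨_, rfl⟩
    rw [← hx0] at hu2 hu3
    have hu0 : θ - 1 / 2 ≤ u := by linarith
    have hnz : ∀ u : ℝ, ‖riemannZeta (((1 / 2 - u : ℝ) : ℂ) + t * I)‖ * ‖HH (I * t - u)‖ = ‖XX (I * t + u)‖ := by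
      intro u
      have h3 := Pool.Agent.H24R2.JP.ZetaTask.part1 (I * t - u) (by simpa using ht0)
      have e : (1 / 2 + (I * (t : ℂ) - u)) = ((1 / 2 - u : ℝ) : ℂ) + t * I := by push_cast; ring
      rw [e] at h3
      rw [← norm_XX_left, h3, norm_mul, mul_comm]
    have h4 := hA (show (1 / 2 - x0 : ℝ) ∈ Iic (1 - θ) by simp only [mem_Iic]; linarith)
      (show (1 / 2 - u : ℝ) ∈ Iic (1 - θ) by simp only [mem_Iic]; linarith)
      (show (1 / 2 - x0 : ℝ) < 1 / 2 - u by linarith)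
    simp only at h4
    have h5 := hgrow t htT x0 u (by linarith) hu2.le (by linarith)
    have h6 : 0 < ‖HH (I * t - u)‖ := by
      rw [norm_pos_iff]
      exact Pool.Agent.H24R2.JP.StirAux.HH_ne (by simpa using ht0)
    have h8 : ‖riemannZeta (((1 / 2 - u : ℝ) : ℂ) + t * I)‖ * ‖HH (I * t - u)‖ <
        ‖riemannZeta (((1 / 2 - x0 : ℝ) : ℂ) + t * I)‖ * ‖HH (I * t - u)‖ :=
      mul_lt_mul_of_pos_right h4 h6
    rw [hnz u] at h8
    have h9 : ‖riemannZeta (((1 / 2 - x0 : ℝ) : ℂ) + t * I)‖ * ‖HH (I * t - u)‖ ≤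
        ‖XX (I * t + x0)‖ * Real.exp (Real.log t * (x0 - u)) := by
      rw [← hnz x0]
      calc ‖riemannZeta (((1 / 2 - x0 : ℝ) : ℂ) + t * I)‖ * ‖HH (I * t - u)‖ ≤
          ‖riemannZeta (((1 / 2 - x0 : ℝ) : ℂ) + t * I)‖ * (‖HH (I * t - x0)‖ * Real.exp (Real.log t * (x0 - u))) :=
            mul_le_mul_of_nonneg_left h5 (norm_nonneg _)
        _ = _ := by ring
    linarith
  exact ⟨fun hi => hnd (decF_of_incF hθ ht8 hi), hnd⟩

end Pool.Agent.Zk5.HR3
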